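import Pool.Agent.Helper49.WA.Ten

/-!
# Weak Atiyah: groups containing their square, and the countable torsion-free case
-/

set_option autoImplicit false
set_option linter.unusedSectionVars false
set_option linter.unusedVariables false

namespace Pool.WeakAtiyah

variable {K : Subfield ℂ}

/-! ### arithmetic -/

/-- a real all of whose powers have a common denominator is an integer -/
lemma int_of_powers {r : ℝ} {n : ℕ} (hn : 0 < n) (h : ∀ N : ℕ, ∃ z : ℤ, r ^ (N + 1) = z / n) : ∃ z : ℤ, r = z := by
  obtain ⟨z, hz⟩ := h 0
  rw [zero_add, pow_one] at hz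
  set q : ℚ := (z : ℚ) / n with hq
  have hrq : r = (q : ℝ) := by
    rw [hz, hq]; push_cast; rfl
  have hd : ∀ N : ℕ, q.den ^ (N + 1) ∣ n := by
    intro N
    obtain ⟨w, hw⟩ := h N
    have h1 : q ^ (N + 1) = (w : ℚ) / n := by
      have h2 : ((q ^ (N + 1) : ℚ) : ℝ) = (((w : ℚ) / n : ℚ) : ℝ) := by
        push_cast
        rw [← hrq, hw]
      exact_mod_cast h2
    have h3 : (q ^ (N + 1)).den = q.den ^ (N + 1) := Rat.den_pow _ _
    rw [← h3, h1]
    have h4 : (((w : ℚ) / (n : ℚ)).den : ℤ) ∣ (n : ℤ) := by
      have h5 := Rat.den_dvd w (n : ℤ)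
      rw [Rat.divInt_eq_div] at h5
      exact_mod_cast h5
    exact_mod_cast h4
  have hden : q.den = 1 := by
    by_contra hne
    have h2 : 2 ≤ q.den := by
      have := q.den_pos
      omega
    have h3 := Nat.le_of_dvd hn (hd n)
    have h4 : 2 ^ (n + 1) ≤ q.den ^ (n + 1) := Nat.pow_le_pow_left h2 _
    have h5 : n + 1 < 2 ^ (n + 1) := Nat.lt_two_pow_self
    omega
  refine ⟨q.num, ?_⟩
  rw [hrq]
  have : (q : ℚ) = (q.num : ℚ) := (Rat.coe_int_num_of_den_eq_one hden).symm
  rw [this]
  push_cast
  rfl

/-! ### groups containing their square -/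

/-- the ranks over a group containing its square are closed under products -/
lemma exists_rank_mul {G : Type} [Group G] (f : G × G →* G) (hf : Function.Injective f) {ι κ ι' κ' : Type}
    [Fintype ι] [Fintype κ] [Fintype ι'] [Fintype κ'] (M : Matrix ι κ (MonoidAlgebra K G))
    (N : Matrix ι' κ' (MonoidAlgebra K G)) : rank (indK f (kr M N)) = rank M * rank N := by
  rw [rank_indK f hf, rank_kr]

lemma exists_rank_pow {G : Type} [Group G] (f : G × G →* G) (hf : Function.Injective f) {ι κ : Type}
    [Fintype ι] [Fintype κ] (M : Matrix ι κ (MonoidAlgebra K G)) (N : ℕ) :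
    ∃ (ι' κ' : Type) (_ : Fintype ι') (_ : Fintype κ') (A : Matrix ι' κ' (MonoidAlgebra K G)),
      rank A = rank M ^ (N + 1) := by
  induction N with
  | zero => exact ⟨ι, κ, inferInstance, inferInstance, M, by rw [zero_add, pow_one]⟩
  | succ N ih =>
    obtain ⟨ι', κ', h1, h2, A, hA⟩ := ih
    exact ⟨ι' × ι, κ' × κ, inferInstance, inferInstance, indK f (kr A M), by
      rw [exists_rank_mul f hf, hA, ← pow_succ]⟩

/-- **bounded denominators imply integrality if the group contains its square** -/
theorem integral_of_weak_of_sq {G : Type} [Group G] (f : G × G →* G) (hf : Function.Injective f) (h : Weak K G) :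
    Integral K G := by
  obtain ⟨n, hn, h⟩ := h
  intro ι κ _ _ A
  rw [Nat.cast_one]
  obtain ⟨z, hz⟩ := int_of_powers (r := rank A) hn fun N => by
    obtain ⟨ι', κ', h1, h2, B, hB⟩ := exists_rank_pow f hf A N
    rw [← hB]
    exact h ι' κ' B
  exact ⟨z, by rw [hz, div_one]⟩

/-- integrality and bounded denominators pass to subgroups -/
theorem ranksIn_of_injective {G H : Type} [Group G] [Group H] (f : H →* G) (hf : Function.Injective f) {n : ℕ}
    (h : RanksIn K G n) : RanksIn K H n := by
  intro ι κ _ _ A
  rw [← rank_indK f hf]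
  exact h ι κ _

/-! ### the countable direct power -/

/-- the direct sum of countably many copies of `G` -/
def dp (G : Type) [Group G] : Subgroup (ℕ → G) where
  carrier := {f | (Function.mulSupport f).Finite}
  mul_mem' {f g} hf hg := (hf.union hg).subset (Function.mulSupport_mul f g)
  one_mem' := by
    show (Function.mulSupport (1 : ℕ → G)).Finite
    rw [Function.mulSupport_one]
    exact Set.finite_empty
  inv_mem' {f} hf := by
    show (Function.mulSupport f⁻¹).Finite
    rw [Function.mulSupport_inv]
    exact hf

lemma mem_dp {G : Type} [Group G] {f : ℕ → G} : f ∈ dp G ↔ (Function.mulSupport f).Finite := Iff.rfl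

instance countable_dp (G : Type) [Group G] [Countable G] : Countable (dp G) := by
  classical
  have : Countable (Additive G) := (inferInstance : Countable G)
  let F : dp G → (ℕ →₀ Additive G) := fun f =>
    { support := f.2.toFinset
      toFun := fun n => Additive.ofMul (f.1 n)
      mem_support_toFun := fun n => by
        rw [Set.Finite.mem_toFinset]
        exact Iff.rfl }
  have hF : Function.Injective F := by
    intro f g hfg
    apply Subtype.ext
    funext n
    have := DFunLike.congr_fun hfg n
    exact this
  exact hF.countable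

/-- the first copy -/
def toDp (G : Type) [Group G] : G →* dp G where
  toFun g := ⟨fun n => if n = 0 then g else 1, (Set.finite_singleton 0).subset (by
    intro n hn
    by_contra hne
    exact hn (if_neg hne))⟩
  map_one' := Subtype.ext (funext fun n => by
    show (if n = 0 then (1 : G) else 1) = 1
    split_ifs <;> rfl)
  map_mul' g h := Subtype.ext (funext fun n => by
    show (if n = 0 then g * h else 1) = (if n = 0 then g else 1) * (if n = 0 then h else 1)
    split_ifs
    · rfl
    · rw [mul_one])

lemma toDp_injective (G : Type) [Group G] : Function.Injective (toDp G) := by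
  intro g h hgh
  exact congrFun (congrArg Subtype.val hgh) 0

/-- the square of the countable power embeds into the power -/
def sqDp (G : Type) [Group G] : dp G × dp G →* dp G where
  toFun p := ⟨fun n => Sum.elim p.1.1 p.2.1 (Equiv.natSumNatEquivNat.symm n), by
    rw [mem_dp]
    refine ((p.1.2.image (fun m => Equiv.natSumNatEquivNat (Sum.inl m))).union
      (p.2.2.image (fun m => Equiv.natSumNatEquivNat (Sum.inr m)))).subset ?_
    intro n hn
    rcases h : Equiv.natSumNatEquivNat.symm n with m | m
    · left
      refine ⟨m, ?_, (Equiv.natSumNatEquivNat.symm_apply_eq.1 h).symm⟩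
      intro h0
      apply hn
      show Sum.elim p.1.1 p.2.1 (Equiv.natSumNatEquivNat.symm n) = 1
      rw [h]
      exact h0
    · right
      refine ⟨m, ?_, (Equiv.natSumNatEquivNat.symm_apply_eq.1 h).symm⟩
      intro h0
      apply hn
      show Sum.elim p.1.1 p.2.1 (Equiv.natSumNatEquivNat.symm n) = 1
      rw [h]
      exact h0⟩
  map_one' := by
    apply Subtype.ext
    funext n
    show Sum.elim (1 : ℕ → G) (1 : ℕ → G) (Equiv.natSumNatEquivNat.symm n) = 1
    rcases Equiv.natSumNatEquivNat.symm n with m | m <;> rfl
  map_mul' p q := by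
    apply Subtype.ext
    funext n
    show Sum.elim (p.1.1 * q.1.1) (p.2.1 * q.2.1) (Equiv.natSumNatEquivNat.symm n) =
      Sum.elim p.1.1 p.2.1 (Equiv.natSumNatEquivNat.symm n) * Sum.elim q.1.1 q.2.1 (Equiv.natSumNatEquivNat.symm n)
    rcases Equiv.natSumNatEquivNat.symm n with m | m <;> rfl

lemma sqDp_injective (G : Type) [Group G] : Function.Injective (sqDp G) := by
  intro p q hpq
  have h : ∀ n, Sum.elim p.1.1 p.2.1 (Equiv.natSumNatEquivNat.symm n) =
      Sum.elim q.1.1 q.2.1 (Equiv.natSumNatEquivNat.symm n) := fun n => congrFun (congrArg Subtype.val hpq) n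
  refine Prod.ext ?_ ?_
  · apply Subtype.ext
    funext m
    have := h (Equiv.natSumNatEquivNat (Sum.inl m))
    rwa [Equiv.symm_apply_apply] at this
  · apply Subtype.ext
    funext m
    have := h (Equiv.natSumNatEquivNat (Sum.inr m))
    rwa [Equiv.symm_apply_apply] at this

lemma torsionFree_dp {G : Type} [Group G] (h : TorsionFree G) : TorsionFree (dp G) := by
  intro g n hn hg
  apply Subtype.ext
  funext m
  exact h _ n hn (congrFun (congrArg Subtype.val hg) m)

/-- bounded denominators for the countable power give integrality for the group -/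
theorem integral_of_weak_dp {G : Type} [Group G] (h : Weak K (dp G)) : Integral K G :=
  ranksIn_of_injective (toDp G) (toDp_injective G) (integral_of_weak_of_sq (sqDp G) (sqDp_injective G) h)

lemma weak_of_integral {G : Type} [Group G] (h : Integral K G) : Weak K G := ⟨1, one_pos, h⟩

lemma boundedTorsion_of_torsionFree {G : Type} [Group G] (h : TorsionFree G) : BoundedTorsion G := by
  refine ⟨1, fun F hF => ?_⟩
  have := hF
  have h1 : ∀ x : F, x = 1 := by
    intro x
    apply Subtype.ext
    refine h x.1 (Nat.card F) Nat.card_pos ?_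
    have := congrArg Subtype.val (pow_card_eq_one' (x := x))
    exact this
  have : Subsingleton F := ⟨fun a b => by rw [h1 a, h1 b]⟩
  exact Finite.card_le_one_iff_subsingleton.2 inferInstance

end Pool.WeakAtiyah
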