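import Mathlib

/-!
# The von Neumann rank of a matrix over a group algebra

`Row G κ` is the Hilbert space `ℓ²(G)^κ` (square-summable functions on `G × κ`), `image A` the image of the right
multiplication `r_A` by a matrix `A` over `K[G]` (`K` a subfield of `ℂ`), `rank A` its von Neumann rank: the trace
`∑ j, ⟨P e_j, e_j⟩` of the orthogonal projection `P` onto the closure of the image, `e_j` being the basis vector
`(δ_1 in the place j)`.
-/

set_option autoImplicit false

namespace Pool.WeakAtiyah

/-- `ℓ²(G)^κ`: square-summable functions on `G × κ` -/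
abbrev Row (G κ : Type*) : Type _ := lp (fun _ : G × κ => ℂ) 2

section
variable {K : Subfield ℂ} {G : Type*} [Group G] {ι κ : Type*} [Fintype ι] [Fintype κ]

/-- the image of `r_A : ℓ²(G)^ι → ℓ²(G)^κ`, `y ↦ y A`, where `(y A) j (g) = ∑ i, ∑ h, (A i j)(h) * y i (g * h⁻¹)`
(so that `δ_g * h = δ_(g h)`) -/
noncomputable def image (A : Matrix ι κ (MonoidAlgebra K G)) : Submodule ℂ (Row G κ) :=
  Submodule.span ℂ {f | ∃ y : Row G ι, ∀ g j,
    f (g, j) = ∑ i, ∑ h ∈ (A i j).coeff.support, ((A i j).coeff h : ℂ) * y (g * h⁻¹, i)}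

open Classical in
/-- the von Neumann rank of `A` -/
noncomputable def rank (A : Matrix ι κ (MonoidAlgebra K G)) : ℝ :=
  ∑ j, ((image A).topologicalClosure.starProjection (lp.single 2 ((1 : G), j) (1 : ℂ)) ((1 : G), j)).re

end

/-- all von Neumann ranks of finite matrices over `K[G]` lie in `(1/n) ℤ` -/
def RanksIn (K : Subfield ℂ) (G : Type) [Group G] (n : ℕ) : Prop :=
  ∀ (ι κ : Type) [Fintype ι] [Fintype κ] (A : Matrix ι κ (MonoidAlgebra K G)), ∃ z : ℤ, rank A = z / n

/-- the weak Atiyah property of `G` over `K`: bounded denominators -/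
def Weak (K : Subfield ℂ) (G : Type) [Group G] : Prop := ∃ n : ℕ, 0 < n ∧ RanksIn K G n

/-- the strong Atiyah property (for torsion-free groups): all ranks are integers -/
def Integral (K : Subfield ℂ) (G : Type) [Group G] : Prop := RanksIn K G 1

/-- no element other than `1` has finite order -/
def TorsionFree (G : Type) [Group G] : Prop := ∀ (g : G) (n : ℕ), 0 < n → g ^ n = 1 → g = 1

/-- a uniform bound on the orders of the finite subgroups -/
def BoundedTorsion (G : Type) [Group G] : Prop := ∃ N : ℕ, ∀ F : Subgroup G, Finite F → Nat.card F ≤ N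

end Pool.WeakAtiyah
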