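import Pool.Agent.Helper49.WA.Defs
import Pool.Agent.Singer.Compare
import Pool.Agent.Singer.IndG
import Pool.Agent.Singer.Rank

/-!
# Weak Atiyah: the operator of a matrix over a group algebra, induction of ranks, zero divisors
-/

set_option autoImplicit false
set_option linter.unusedSectionVars false
set_option linter.unusedVariables false

open scoped ComplexConjugate InnerProductSpace Matrix
open Filter Topology

namespace Pool.WeakAtiyah

open Singer

variable {K : Subfield ℂ} {Γ : Type*} [Group Γ] {ι κ μ : Type*} [Fintype ι] [Fintype κ] [Fintype μ]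

/-- right multiplication by a matrix over the group algebra -/
noncomputable def hatK (M : Matrix ι κ (MonoidAlgebra K Γ)) : E Γ ι →L[ℂ] E Γ κ :=
  ∑ i, ∑ l, ∑ x ∈ (M i l).coeff.support, ((M i l).coeff x : ℂ) • (rt x⁻¹).comp (col i l)

lemma equi_hatK (M : Matrix ι κ (MonoidAlgebra K Γ)) : Equi (hatK M) :=
  Equi.sum fun _ _ => Equi.sum fun _ _ => Equi.sum fun _ _ => ((equi_rt _).comp (equi_col _ _)).smul _

lemma hatK_apply (M : Matrix ι κ (MonoidAlgebra K Γ)) (f : E Γ ι) (g : Γ) (l : κ) :
    hatK M f (g, l) = ∑ i, ∑ x ∈ (M i l).coeff.support, ((M i l).coeff x : ℂ) * f (g * x⁻¹, i) := by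
  classical
  unfold hatK
  simp only [sum_apply, lp.coeFn_sum, Finset.sum_apply, smul_apply, lp.coeFn_smul, Pi.smul_apply, smul_eq_mul,
    ContinuousLinearMap.comp_apply, rt_apply, col_apply]
  refine Finset.sum_congr rfl fun i _ => ?_
  rw [Finset.sum_eq_single l]
  · simp
  · intro l' _ hl'
    refine Finset.sum_eq_zero fun x _ => ?_
    rw [if_neg (Ne.symm hl'), mul_zero]
  · intro h
    exact absurd (Finset.mem_univ l) h

/-- range of the operator -/
noncomputable abbrev rg (M : Matrix ι κ (MonoidAlgebra K Γ)) : Submodule ℂ (E Γ κ) :=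
  LinearMap.range (hatK M : E Γ ι →ₗ[ℂ] E Γ κ)

lemma image_eq (M : Matrix ι κ (MonoidAlgebra K Γ)) : image M = rg M := by
  have h : {f : Row Γ κ | ∃ y : Row Γ ι, ∀ g j,
      f (g, j) = ∑ i, ∑ h ∈ (M i j).coeff.support, ((M i j).coeff h : ℂ) * y (g * h⁻¹, i)} = (rg M : Set (E Γ κ)) := by
    ext f
    constructor
    · rintro ⟨y, hy⟩
      refine ⟨y, ?_⟩
      ext x
      obtain ⟨g, j⟩ := x
      show hatK M y (g, j) = _
      rw [hatK_apply, hy]
    · rintro ⟨y, rfl⟩
      exact ⟨y, fun g j => hatK_apply M y g j⟩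
  unfold image
  rw [h, Submodule.span_eq]

lemma rank_eq (M : Matrix ι κ (MonoidAlgebra K Γ)) : rank M = vdim (rg M) := by
  have h1 : ((rank M : ℝ) : ℂ) = tr (prj (rg M)) := by
    have h2 : ∀ j : κ, (((prj (rg M) (del 1 j)) (1, j)).re : ℂ) = (prj (rg M) (del (1 : Γ) j)) (1, j) := by
      intro j
      have h : prj (rg M) (prj (rg M) (del 1 j)) = prj (rg M) (del (1 : Γ) j) := prj_eq_of_mem (prj_mem _ _)
      rw [← inner_del_left, ← h, ← prj_inner]
      have h3 := inner_self_eq_norm_sq_to_K (𝕜 := ℂ) (prj (rg M) (del (1 : Γ) j))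
      rw [h3]
      norm_cast
    have h0 : rank M = ∑ j, ((prj (image M) (del (1 : Γ) j)) (1, j)).re := rfl
    rw [h0, image_eq]
    unfold tr
    push_cast
    exact Finset.sum_congr rfl fun j _ => h2 j
  have h2 := vdim_eq_tr (rg M)
  rw [← h1] at h2
  exact_mod_cast h2.symm

lemma rank_eq_closure (M : Matrix ι κ (MonoidAlgebra K Γ)) : rank M = vdim (rg M).topologicalClosure := by
  rw [rank_eq, vdim_closure]

lemma inv_rg (M : Matrix ι κ (MonoidAlgebra K Γ)) : Singer.Inv (rg M) := by
  rintro g _ ⟨f, rfl⟩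
  exact ⟨lam g f, equi_hatK M g f⟩

/-! ### induction -/

section ind
variable {H : Type*} [Group H] (j : H →* Γ) (hj : Function.Injective j)

/-- the induced matrix -/
noncomputable def indK (M : Matrix ι κ (MonoidAlgebra K H)) : Matrix ι κ (MonoidAlgebra K Γ) :=
  M.map (MonoidAlgebra.mapDomainRingHom K j)

include hj in
lemma indRel_hatK (M : Matrix ι κ (MonoidAlgebra K H)) : IndRel j hj (hatK M) (hatK (indK j M)) := by
  classical
  have h : hatK (indK j M) = ∑ i, ∑ l, ∑ x ∈ (M i l).coeff.support, ((M i l).coeff x : ℂ) •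
      (rt (j x⁻¹)).comp (col i l) := by
    unfold hatK
    refine Finset.sum_congr rfl fun i _ => Finset.sum_congr rfl fun l _ => ?_
    have h1 : (indK j M i l).coeff = (M i l).coeff.mapDomain j := by
      simp [indK]
    rw [h1]
    have h2 : ((M i l).coeff.mapDomain j).support = (M i l).coeff.support.image j :=
      Finsupp.mapDomain_support_of_injective hj _
    rw [h2, Finset.sum_image fun a _ b _ hab => hj hab]
    refine Finset.sum_congr rfl fun x _ => ?_
    rw [Finsupp.mapDomain_apply hj, map_inv]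
  rw [h]
  unfold hatK
  exact IndRel.sum fun i _ => IndRel.sum fun l _ => IndRel.sum fun x _ =>
    ((IndRel.rt _).comp (IndRel.col _ _)).smul _

include hj in
/-- the rank does not change under an injective homomorphism of groups -/
theorem rank_indK (M : Matrix ι κ (MonoidAlgebra K H)) : rank (indK j M) = rank M := by
  have h1 := (indRel_hatK j hj M).map (V := ⊤) inv_top
  rw [ind_top, Submodule.map_top, Submodule.map_top] at h1
  rw [rank_eq_closure, rank_eq_closure, ← h1]
  exact vdim_ind (inv_rg M).closure (Submodule.isClosed_topologicalClosure _)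

end ind

/-! ### zero divisors -/

section zd
variable {G : Type} [Group G]

/-- a `1 × 1` matrix -/
def m11 (a : MonoidAlgebra K G) : Matrix Unit Unit (MonoidAlgebra K G) := fun _ _ => a

lemma hatK_m11 (a : MonoidAlgebra K G) (f : E G Unit) (x : G) :
    hatK (m11 a) f (x, ()) = ∑ y ∈ a.coeff.support, (a.coeff y : ℂ) * f (x * y⁻¹, ()) := by
  rw [hatK_apply]
  simp only [Finset.univ_unique, Finset.sum_singleton]
  rfl

lemma hatK_m11_del (a : MonoidAlgebra K G) (x : G) : hatK (m11 a) (del 1 ()) (x, ()) = (a.coeff x : ℂ) := by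
  rw [hatK_m11]
  by_cases hx : x ∈ a.coeff.support
  · rw [Finset.sum_eq_single x]
    · rw [mul_inv_cancel, del_apply_self, mul_one]
    · intro y _ hy
      rw [del_apply_ne, mul_zero]
      intro h'
      apply hy
      have := congrArg Prod.fst h'
      exact (mul_inv_eq_one.1 this).symm
    · exact fun h' => absurd hx h'
  · rw [Finset.sum_eq_zero]
    · rw [Finsupp.notMem_support_iff.1 hx]; simp
    · intro y hy
      rw [del_apply_ne, mul_zero]
      intro h'
      apply hx
      have := congrArg Prod.fst h'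
      rw [mul_inv_eq_one.1 this]
      exact hy

lemma exists_coeff_ne {a : MonoidAlgebra K G} (ha : a ≠ 0) : ∃ x, a.coeff x ≠ 0 := by
  by_contra h
  simp only [not_exists, not_not] at h
  apply ha
  ext x
  rw [h]
  rfl

lemma hatK_m11_ne {a : MonoidAlgebra K G} (ha : a ≠ 0) : hatK (m11 a) (del 1 ()) ≠ 0 := by
  obtain ⟨x, hx⟩ := exists_coeff_ne ha
  intro h
  have h1 := hatK_m11_del a x
  rw [h] at h1
  apply hx
  exact Subtype.ext h1.symm

/-- integral ranks imply that there are no zero divisors -/
theorem noZeroDivisors_of_integral (h : Integral K G) : NoZeroDivisors (MonoidAlgebra K G) where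
  eq_zero_or_eq_zero_of_mul_eq_zero := by
    intro a b hab
    by_contra hne
    obtain ⟨ha, hb⟩ := not_or.1 hne
    obtain ⟨z, hz⟩ := h Unit Unit (m11 b)
    rw [rank_eq, Nat.cast_one, div_one] at hz
    have hsum := vdim_ker_add (equi_hatK (m11 b))
    rw [Fintype.card_unit, Nat.cast_one] at hsum
    have hAB : hatK (m11 b) (hatK (m11 a) (del 1 ())) = 0 := by
      ext x
      obtain ⟨x, u⟩ := x
      rw [hatK_m11]
      simp_rw [hatK_m11_del]
      have h1 : (a * b).coeff x = 0 := by rw [hab]; rfl
      rw [MonoidAlgebra.coeff_mul_apply_right] at h1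
      have h3 := congrArg (fun t : K => (t : ℂ)) h1
      simp only [ZeroMemClass.coe_zero, Finsupp.sum] at h3
      push_cast at h3
      refine Eq.trans ?_ h3
      exact Finset.sum_congr rfl fun y _ => mul_comm _ _
    have hk : 0 < vdim (LinearMap.ker (hatK (m11 b) : E G Unit →ₗ[ℂ] E G Unit)) := by
      by_contra hk
      have h0 := eq_bot_of_vdim (inv_ker (equi_hatK (m11 b))) (not_lt.1 hk)
      apply hatK_m11_ne ha
      have : hatK (m11 a) (del 1 ()) ∈ LinearMap.ker (hatK (m11 b) : E G Unit →ₗ[ℂ] E G Unit) := hAB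
      rwa [h0, Submodule.mem_bot] at this
    have hr : 0 < vdim (rg (m11 b)) := by
      by_contra hk
      have h0 := eq_bot_of_vdim (inv_rg (m11 b)) (not_lt.1 hk)
      apply hatK_m11_ne hb
      have : hatK (m11 b) (del 1 ()) ∈ rg (m11 b) := ⟨_, rfl⟩
      rwa [h0, Submodule.mem_bot] at this
    have h1 : (0 : ℝ) < z := by linarith
    have h2 : (z : ℝ) < 1 := by
      have : vdim (rg (m11 b)) < 1 := by
        unfold rg
        linarith
      linarith
    have h3 : 0 < z := by exact_mod_cast h1
    have h4 : z < 1 := by exact_mod_cast h2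
    omega

end zd

end Pool.WeakAtiyah
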