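import Pool.Agent.Helper49.WA.Op

/-!
# Weak Atiyah: the rank of a Kronecker product over `Γ × Δ` is the product of the ranks
-/

set_option autoImplicit false
set_option linter.unusedSectionVars false
set_option linter.unusedVariables false

open scoped ComplexConjugate InnerProductSpace Matrix
open Filter Topology

namespace Pool.WeakAtiyah

open Singer

variable {K : Subfield ℂ} {Γ Δ : Type*} [Group Γ] [Group Δ] {ι κ ι' κ' : Type*}

lemma hasSum_ten (f : E Γ ι) (g : E Δ κ) :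
    HasSum (fun x : (Γ × Δ) × (ι × κ) => ‖f (x.1.1, x.2.1) * g (x.1.2, x.2.2)‖ ^ 2) (‖f‖ ^ 2 * ‖g‖ ^ 2) := by
  rw [← (Equiv.prodProdProdComm Γ ι Δ κ).hasSum_iff]
  have h1 := (summable_sq f).hasSum
  have h2 := (summable_sq g).hasSum
  rw [← norm_sq_eq] at h1 h2
  have h3 : Summable fun x : (Γ × ι) × (Δ × κ) => ‖f x.1‖ ^ 2 * ‖g x.2‖ ^ 2 :=
    (summable_sq f).mul_of_nonneg (summable_sq g) (fun _ => by positivity) (fun _ => by positivity)
  have he : (fun x : (Γ × Δ) × (ι × κ) => ‖f (x.1.1, x.2.1) * g (x.1.2, x.2.2)‖ ^ 2) ∘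
      (Equiv.prodProdProdComm Γ ι Δ κ) = fun x : (Γ × ι) × (Δ × κ) => ‖f x.1‖ ^ 2 * ‖g x.2‖ ^ 2 := by
    funext x
    obtain ⟨⟨a, i⟩, ⟨b, j⟩⟩ := x
    show ‖f (a, i) * g (b, j)‖ ^ 2 = _
    rw [norm_mul, mul_pow]
  rw [he]
  exact h1.mul h2 h3

/-- tensor product of two square-summable functions -/
noncomputable def ten (f : E Γ ι) (g : E Δ κ) : E (Γ × Δ) (ι × κ) :=
  ⟨fun x => f (x.1.1, x.2.1) * g (x.1.2, x.2.2), memL2 (hasSum_ten f g).summable⟩

@[simp] lemma ten_apply (f : E Γ ι) (g : E Δ κ) (x : (Γ × Δ) × (ι × κ)) :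
    ten f g x = f (x.1.1, x.2.1) * g (x.1.2, x.2.2) := rfl

lemma norm_sq_ten (f : E Γ ι) (g : E Δ κ) : ‖ten f g‖ ^ 2 = ‖f‖ ^ 2 * ‖g‖ ^ 2 := by
  rw [norm_sq_eq]
  exact (hasSum_ten f g).tsum_eq

lemma norm_ten (f : E Γ ι) (g : E Δ κ) : ‖ten f g‖ = ‖f‖ * ‖g‖ := by
  have h := norm_sq_ten f g
  rw [← mul_pow] at h
  exact (sq_eq_sq₀ (norm_nonneg _) (by positivity)).1 h

lemma ten_sub_left (f f' : E Γ ι) (g : E Δ κ) : ten (f - f') g = ten f g - ten f' g := by
  ext x
  simp [sub_mul]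

lemma ten_sub_right (f : E Γ ι) (g g' : E Δ κ) : ten f (g - g') = ten f g - ten f g' := by
  ext x
  simp [mul_sub]

lemma continuous_ten_left (g : E Δ κ) : Continuous fun f : E Γ ι => ten f g := by
  refine LipschitzWith.continuous (K := ‖g‖₊) (LipschitzWith.of_dist_le_mul fun f f' => ?_)
  rw [dist_eq_norm, dist_eq_norm, ← ten_sub_left, norm_ten, mul_comm]
  rfl

lemma continuous_ten_right (f : E Γ ι) : Continuous fun g : E Δ κ => ten f g := by
  refine LipschitzWith.continuous (K := ‖f‖₊) (LipschitzWith.of_dist_le_mul fun g g' => ?_)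
  rw [dist_eq_norm, dist_eq_norm, ← ten_sub_right, norm_ten]
  rfl

lemma summ_ten (f f' : E Γ ι) (g g' : E Δ κ) :
    Summable fun x : (Γ × ι) × (Δ × κ) => (conj (f x.1) * f' x.1) * (conj (g x.2) * g' x.2) :=
  summable_mul_of_summable_norm (f := fun x : Γ × ι => conj (f x) * f' x)
    (g := fun x : Δ × κ => conj (g x) * g' x) (summable_inner' f f').norm (summable_inner' g g').norm

lemma comp_ten (f f' : E Γ ι) (g g' : E Δ κ) :
    (fun x : (Γ × Δ) × (ι × κ) => conj (ten f g x) * ten f' g' x) ∘ (Equiv.prodProdProdComm Γ ι Δ κ) =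
      fun x : (Γ × ι) × (Δ × κ) => (conj (f x.1) * f' x.1) * (conj (g x.2) * g' x.2) := by
  funext x
  obtain ⟨⟨a, i⟩, ⟨b, j⟩⟩ := x
  have h1 : ten f g (Equiv.prodProdProdComm Γ ι Δ κ ((a, i), (b, j))) = f (a, i) * g (b, j) := rfl
  have h2 : ten f' g' (Equiv.prodProdProdComm Γ ι Δ κ ((a, i), (b, j))) = f' (a, i) * g' (b, j) := rfl
  rw [Function.comp_apply, h1, h2, map_mul]
  ring

lemma inner_ten (f f' : E Γ ι) (g g' : E Δ κ) : ⟪ten f g, ten f' g'⟫_ℂ = ⟪f, f'⟫_ℂ * ⟪g, g'⟫_ℂ := by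
  rw [inner_eq, inner_eq, inner_eq]
  have h4 : HasSum (fun x : (Γ × ι) × (Δ × κ) => (conj (f x.1) * f' x.1) * (conj (g x.2) * g' x.2))
      ((∑' x, conj (f x) * f' x) * (∑' x, conj (g x) * g' x)) :=
    HasSum.mul (f := fun x : Γ × ι => conj (f x) * f' x) (g := fun x : Δ × κ => conj (g x) * g' x)
      (summable_inner' f f').hasSum (summable_inner' g g').hasSum (summ_ten f f' g g')
  rw [← comp_ten, Equiv.hasSum_iff] at h4
  exact h4.tsum_eq

lemma ten_del (a : Γ) (b : Δ) (i : ι) (j : κ) : ten (del a i) (del b j) = (del (a, b) (i, j) : E (Γ × Δ) (ι × κ)) := by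
  ext x
  obtain ⟨⟨a', b'⟩, ⟨i', j'⟩⟩ := x
  rw [ten_apply]
  show (del a i : E Γ ι) (a', i') * (del b j : E Δ κ) (b', j') = _
  by_cases h1 : (a', i') = (a, i)
  · by_cases h2 : (b', j') = (b, j)
    · simp only [Prod.mk.injEq] at h1 h2
      obtain ⟨rfl, rfl⟩ := h1
      obtain ⟨rfl, rfl⟩ := h2
      rw [del_apply_self, del_apply_self, del_apply_self, mul_one]
    · rw [del_apply_ne h2, mul_zero, del_apply_ne]
      intro h
      apply h2
      simp only [Prod.mk.injEq] at h ⊢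
      exact ⟨h.1.2, h.2.2⟩
  · rw [del_apply_ne h1, zero_mul, del_apply_ne]
    intro h
    apply h1
    simp only [Prod.mk.injEq] at h ⊢
    exact ⟨h.1.1, h.2.1⟩

/-- the tensor product of two elements of group algebras -/
noncomputable def tg (a : MonoidAlgebra K Γ) (b : MonoidAlgebra K Δ) : MonoidAlgebra K (Γ × Δ) :=
  ⟨Finsupp.onFinset (a.coeff.support ×ˢ b.coeff.support) (fun p => a.coeff p.1 * b.coeff p.2) (by
    intro p hp
    rw [Finset.mem_product, Finsupp.mem_support_iff, Finsupp.mem_support_iff]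
    exact ⟨left_ne_zero_of_mul hp, right_ne_zero_of_mul hp⟩)⟩

lemma tg_coeff (a : MonoidAlgebra K Γ) (b : MonoidAlgebra K Δ) (p : Γ × Δ) :
    (tg a b).coeff p = a.coeff p.1 * b.coeff p.2 := rfl

lemma tg_support (a : MonoidAlgebra K Γ) (b : MonoidAlgebra K Δ) :
    (tg a b).coeff.support ⊆ a.coeff.support ×ˢ b.coeff.support := by
  intro p hp
  rw [Finsupp.mem_support_iff, tg_coeff] at hp
  rw [Finset.mem_product, Finsupp.mem_support_iff, Finsupp.mem_support_iff]
  exact ⟨left_ne_zero_of_mul hp, right_ne_zero_of_mul hp⟩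

/-- Kronecker product over the product of the groups -/
noncomputable def kr (M : Matrix ι κ (MonoidAlgebra K Γ)) (N : Matrix ι' κ' (MonoidAlgebra K Δ)) :
    Matrix (ι × ι') (κ × κ') (MonoidAlgebra K (Γ × Δ)) := fun p q => tg (M p.1 q.1) (N p.2 q.2)

variable [Fintype ι] [Fintype κ] [Fintype ι'] [Fintype κ']

lemma hatK_kr (M : Matrix ι κ (MonoidAlgebra K Γ)) (N : Matrix ι' κ' (MonoidAlgebra K Δ)) (f : E Γ ι) (g : E Δ ι') :
    hatK (kr M N) (ten f g) = ten (hatK M f) (hatK N g) := by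
  ext x
  obtain ⟨⟨a, b⟩, ⟨l, l'⟩⟩ := x
  rw [hatK_apply, ten_apply]
  show _ = (hatK M f) (a, l) * (hatK N g) (b, l')
  rw [hatK_apply, hatK_apply, Finset.sum_mul_sum, Fintype.sum_prod_type]
  refine Finset.sum_congr rfl fun i _ => Finset.sum_congr rfl fun i' _ => ?_
  rw [Finset.sum_mul_sum, ← Finset.sum_product']
  refine (Finset.sum_subset (tg_support (M i l) (N i' l')) ?_).trans ?_
  · intro p _ hp
    have h0 : (kr M N (i, i') (l, l')).coeff p = 0 := Finsupp.notMem_support_iff.1 hp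
    rw [h0]
    simp
  · refine Finset.sum_congr rfl fun p _ => ?_
    show (((M i l).coeff p.1 * (N i' l').coeff p.2 : K) : ℂ) * (f (a * p.1⁻¹, i) * g (b * p.2⁻¹, i')) = _
    push_cast
    ring

/-- rank of a Kronecker product -/
theorem rank_kr (M : Matrix ι κ (MonoidAlgebra K Γ)) (N : Matrix ι' κ' (MonoidAlgebra K Δ)) :
    rank (kr M N) = rank M * rank N := by
  rw [rank_eq, rank_eq, rank_eq]
  have hP : ∀ (j : κ) (j' : κ'), prj (rg (kr M N)) (del 1 (j, j')) =
      ten (prj (rg M) (del (1 : Γ) j)) (prj (rg N) (del (1 : Δ) j')) := by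
    intro j j'
    refine prj_unique ?_ ?_
    · -- in the closure
      have h1 : ∀ v ∈ rg M, ∀ w ∈ rg N, ten v w ∈ (rg (kr M N)).topologicalClosure := by
        rintro _ ⟨f, rfl⟩ _ ⟨g, rfl⟩
        apply Submodule.le_topologicalClosure
        exact ⟨ten f g, hatK_kr M N f g⟩
      have h2 : ∀ w ∈ rg N, ∀ v ∈ (rg M).topologicalClosure, ten v w ∈ (rg (kr M N)).topologicalClosure := by
        intro w hw v hv
        have hc : IsClosed {v : E Γ κ | ten v w ∈ (rg (kr M N)).topologicalClosure} :=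
          (Submodule.isClosed_topologicalClosure _).preimage (continuous_ten_left w)
        exact closure_minimal (fun v hv => h1 v hv w hw) hc hv
      have h3 : ∀ v ∈ (rg M).topologicalClosure, ∀ w ∈ (rg N).topologicalClosure,
          ten v w ∈ (rg (kr M N)).topologicalClosure := by
        intro v hv w hw
        have hc : IsClosed {w : E Δ κ' | ten v w ∈ (rg (kr M N)).topologicalClosure} :=
          (Submodule.isClosed_topologicalClosure _).preimage (continuous_ten_right v)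
        exact closure_minimal (fun w hw => h2 w hw v hv) hc hw
      exact h3 _ (prj_mem _ _) _ (prj_mem _ _)
    · -- orthogonality
      set v := (del (1 : Γ × Δ) (j, j') : E (Γ × Δ) (κ × κ')) -
        ten (prj (rg M) (del (1 : Γ) j)) (prj (rg N) (del (1 : Δ) j')) with hv
      have key : ContinuousLinearMap.adjoint (hatK (kr M N)) v = 0 := by
        ext x
        obtain ⟨⟨a, b⟩, ⟨i, i'⟩⟩ := x
        rw [← inner_del_left, ContinuousLinearMap.adjoint_inner_right, ← ten_del, hatK_kr, hv]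
        have h0 : (del (1 : Γ × Δ) (j, j') : E (Γ × Δ) (κ × κ')) = ten (del (1 : Γ) j) (del (1 : Δ) j') := by
          rw [ten_del]; rfl
        rw [h0, inner_sub_right, inner_ten, inner_ten]
        have hM : ⟪hatK M (del a i), prj (rg M) (del (1 : Γ) j)⟫_ℂ = ⟪hatK M (del a i), del (1 : Γ) j⟫_ℂ := by
          have h1 : hatK M (del a i) ∈ rg M := ⟨_, rfl⟩
          rw [← prj_inner, prj_eq_of_mem (Submodule.le_topologicalClosure _ h1)]
        have hN : ⟪hatK N (del b i'), prj (rg N) (del (1 : Δ) j')⟫_ℂ = ⟪hatK N (del b i'), del (1 : Δ) j'⟫_ℂ := by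
          have h1 : hatK N (del b i') ∈ rg N := ⟨_, rfl⟩
          rw [← prj_inner, prj_eq_of_mem (Submodule.le_topologicalClosure _ h1)]
        rw [hM, hN, sub_self]
        simp
      rw [Submodule.mem_orthogonal]
      rintro _ ⟨z, rfl⟩
      show ⟪hatK (kr M N) z, v⟫_ℂ = 0
      rw [← ContinuousLinearMap.adjoint_inner_right, key, inner_zero_right]
  unfold vdim
  rw [Finset.sum_mul_sum, Fintype.sum_prod_type]
  refine Finset.sum_congr rfl fun j _ => Finset.sum_congr rfl fun j' _ => ?_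
  rw [hP, norm_sq_ten]

end Pool.WeakAtiyah
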